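import Mathlib

set_option autoImplicit false

/-!
# A class of representations which is axiomatizable, saturated and right hereditary,
# but is not defined by formulas of action

For a nontrivial ring `K` the class of all representations `(V, G)` in which some nonzero vector is
fixed by the whole group `G` is defined by one first-order sentence, and it is saturated and right
hereditary. A formula of action involves finitely many group variables, so a class defined by
formulas of action contains `(V, G)` as soon as it contains `(V, H)` for enough subgroups `H`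
containing given finitely many elements; this fails for the group of all automorphisms of
`K ⊕ K ⊕ ...` which fix all but finitely many of the standard basis vectors.
-/

namespace Pool.Agent.Results.MP_98e941_al.FixedVector

universe u

/-- A representation `(V, G)` over the ring `K`: a `K`-module `V` and a group `G` acting on `V` on
the right by `K`-linear maps (automorphisms, since `G` is a group). -/
structure Repr (K : Type u) [Ring K] where
  /-- the module -/
  V : Type u
  /-- the group -/
  G : Type u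
  [instAddCommGroup : AddCommGroup V]
  [instModule : Module K V]
  [instGroup : Group G]
  /-- the action `v ∘ g` -/
  act : V → G → V
  act_add : ∀ v w g, act (v + w) g = act v g + act w g
  act_smul : ∀ (c : K) v g, act (c • v) g = c • act v g
  act_one : ∀ v, act v 1 = v
  act_mul : ∀ v g h, act v (g * h) = act (act v g) h

attribute [instance] Repr.instAddCommGroup Repr.instModule Repr.instGroup

variable {K : Type u} [Ring K]

/-- Isomorphism of representations: a linear isomorphism and a group isomorphism which are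
compatible with the two actions. -/
def Iso (ρ σ : Repr K) : Prop :=
  ∃ (f : ρ.V ≃ₗ[K] σ.V) (φ : ρ.G ≃* σ.G), ∀ v g, f (ρ.act v g) = σ.act (f v) (φ g)

/-- The kernel of the action. -/
def Repr.ker (ρ : Repr K) : Subgroup ρ.G where
  carrier := {g | ∀ v, ρ.act v g = v}
  mul_mem' := by
    intro a b ha hb v
    rw [ρ.act_mul, ha, hb]
  one_mem' := ρ.act_one
  inv_mem' := by
    intro a ha v
    have h : ρ.act (ρ.act v a) a⁻¹ = v := by rw [← ρ.act_mul, mul_inv_cancel, ρ.act_one]
    rwa [ha v] at h

instance (ρ : Repr K) : ρ.ker.Normal where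
  conj_mem := by
    intro n hn g v
    have h1 : ρ.act (ρ.act v g) n = ρ.act v g := hn _
    rw [ρ.act_mul, ρ.act_mul, h1, ← ρ.act_mul, mul_inv_cancel, ρ.act_one]

/-- The faithful representation `(V, G ⧸ N)` of `(V, G)`, where `N` is the kernel of the action. -/
def Repr.faithful (ρ : Repr K) : Repr K where
  V := ρ.V
  G := ρ.G ⧸ ρ.ker
  act := fun v q => Quotient.liftOn' q (fun g => ρ.act v g) (by
    intro a b hab
    rw [QuotientGroup.leftRel_apply] at hab
    have h : ρ.act (ρ.act v a) (a⁻¹ * b) = ρ.act v a := hab _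
    rw [← h, ← ρ.act_mul, mul_inv_cancel_left])
  act_add := by
    intro v w q
    induction q using Quotient.inductionOn' with
    | h g => exact ρ.act_add v w g
  act_smul := by
    intro c v q
    induction q using Quotient.inductionOn' with
    | h g => exact ρ.act_smul c v g
  act_one := fun v => ρ.act_one v
  act_mul := by
    intro v p q
    induction p using Quotient.inductionOn' with
    | h g =>
      induction q using Quotient.inductionOn' with
      | h k => exact ρ.act_mul v g k

/-- The subrepresentation `(V, H)` of `(V, G)` for a subgroup `H` of `G`. -/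
def Repr.restrict (ρ : Repr K) (H : Subgroup ρ.G) : Repr K where
  V := ρ.V
  G := H
  act := fun v g => ρ.act v g
  act_add := fun v w g => ρ.act_add v w g
  act_smul := fun c v g => ρ.act_smul c v g
  act_one := fun v => ρ.act_one v
  act_mul := fun v g h => ρ.act_mul v g h

/-- First-order formulas of the two-sorted language of representations over `K`. The module
variables `x n` and the group variables `y n` are indexed by the natural numbers `n`.
* `lin [(n₁, u₁), ..., (n_k, u_k)]` is the elementary formula `x n₁ ∘ u₁ + ... + x n_k ∘ u_k ≡ 0`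
  with `u₁, ..., u_k` in the group algebra `K F` of the free group `F = F(Y)`;
* `grp f` is the elementary formula `f ≡ 1`, `f ∈ F`;
* `allX`, `exX` are the quantifiers over a module variable;
* `allY`, `exY` are the quantifiers over a group variable. -/
inductive Formula (K : Type u) [Ring K] : Type u
  | lin : List (ℕ × MonoidAlgebra K (FreeGroup ℕ)) → Formula K
  | grp : FreeGroup ℕ → Formula K
  | and : Formula K → Formula K → Formula K
  | or : Formula K → Formula K → Formula K
  | not : Formula K → Formula K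
  | allX : ℕ → Formula K → Formula K
  | exX : ℕ → Formula K → Formula K
  | allY : ℕ → Formula K → Formula K
  | exY : ℕ → Formula K → Formula K

/-- The value `v ∘ u` of an element `u` of the group algebra `K F` at the vector `v`, when the
group variables take the values `b`: the sum of `c_f • (v ∘ f(b))` over the terms `c_f f` of `u`. -/
noncomputable def Repr.actAlg (ρ : Repr K) (b : ℕ → ρ.G) (v : ρ.V)
    (w : MonoidAlgebra K (FreeGroup ℕ)) : ρ.V :=
  Finsupp.sum w.coeff (fun f c => c • ρ.act v (FreeGroup.lift b f))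

/-- Satisfaction of a formula in `ρ` when the module variables take the values `a` and the group
variables take the values `b`. -/
def Sat (ρ : Repr K) : (ℕ → ρ.V) → (ℕ → ρ.G) → Formula K → Prop
  | a, b, .lin l => (l.map (fun p => ρ.actAlg b (a p.1) p.2)).sum = 0
  | _, b, .grp f => FreeGroup.lift b f = 1
  | a, b, .and φ ψ => Sat ρ a b φ ∧ Sat ρ a b ψ
  | a, b, .or φ ψ => Sat ρ a b φ ∨ Sat ρ a b ψ
  | a, b, .not φ => ¬ Sat ρ a b φ
  | a, b, .allX n φ => ∀ v, Sat ρ (Function.update a n v) b φ
  | a, b, .exX n φ => ∃ v, Sat ρ (Function.update a n v) b φ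
  | a, b, .allY n φ => ∀ g, Sat ρ a (Function.update b n g) φ
  | a, b, .exY n φ => ∃ g, Sat ρ a (Function.update b n g) φ

/-- A formula holds in `ρ` if it is satisfied under every assignment. -/
def Holds (ρ : Repr K) (φ : Formula K) : Prop := ∀ a b, Sat ρ a b φ

/-- Formulas of action: built from elementary formulas of the first type only, with `∧`, `∨`, `¬`
and quantifiers over module variables only. -/
def IsActionFormula : Formula K → Prop
  | .lin _ => True
  | .grp _ => False
  | .and φ ψ => IsActionFormula φ ∧ IsActionFormula ψ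
  | .or φ ψ => IsActionFormula φ ∧ IsActionFormula ψ
  | .not φ => IsActionFormula φ
  | .allX _ φ => IsActionFormula φ
  | .exX _ φ => IsActionFormula φ
  | .allY _ _ => False
  | .exY _ _ => False

/-- The class `X` is defined by the set `T` of formulas, that is `X = T'`. -/
def DefinedBy (X : Repr K → Prop) (T : Set (Formula K)) : Prop :=
  ∀ ρ, X ρ ↔ ∀ φ ∈ T, Holds ρ φ

/-- Abstract classes: closed under isomorphism. -/
def IsAbstract (X : Repr K → Prop) : Prop := ∀ ρ σ, Iso ρ σ → X ρ → X σ

/-- Saturated classes: `(V, G)` is in the class iff its faithful representation is. -/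
def IsSaturated (X : Repr K → Prop) : Prop := ∀ ρ, X ρ ↔ X ρ.faithful

/-- Right hereditary classes: with `(V, G)` the class contains all `(V, H)`, `H ≤ G`. -/
def IsRightHereditary (X : Repr K → Prop) : Prop := ∀ ρ, X ρ → ∀ H, X (ρ.restrict H)

/-! ### The class -/

/-- Some nonzero vector is fixed by the whole group. -/
def HasFixed (ρ : Repr K) : Prop := ∃ v : ρ.V, v ≠ 0 ∧ ∀ g, ρ.act v g = v

/-- The sentence `∃ x ∀ y, ¬ (x ∘ 1 ≡ 0) ∧ x ∘ (y - 1) ≡ 0`. -/
noncomputable def fixFormula (K : Type u) [Ring K] : Formula K :=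
  .exX 0 (.allY 0 (.and (.not (.lin [(0, MonoidAlgebra.single 1 1)]))
    (.lin [(0, MonoidAlgebra.single (FreeGroup.of 0) 1), (0, MonoidAlgebra.single 1 (-1))])))

lemma actAlg_single (ρ : Repr K) (b : ℕ → ρ.G) (v : ρ.V) (f : FreeGroup ℕ) (c : K) :
    ρ.actAlg b v (MonoidAlgebra.single f c) = c • ρ.act v (FreeGroup.lift b f) := by
  unfold Repr.actAlg
  rw [MonoidAlgebra.coeff_single]
  exact Finsupp.sum_single_index (zero_smul K _)

lemma holds_fixFormula (ρ : Repr K) : Holds ρ (fixFormula K) ↔ HasFixed ρ := by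
  constructor
  · intro h
    obtain ⟨v, hv⟩ := h (fun _ => 0) (fun _ => 1)
    refine ⟨v, ?_, ?_⟩
    · intro h0
      apply (hv 1).1
      simp [Sat, actAlg_single, h0]
      have := ρ.act_smul (0 : K) 0 1
      simpa using this
    · intro g
      have h2 := (hv g).2
      simp only [Sat, List.map_cons, List.map_nil, List.sum_cons, List.sum_nil, actAlg_single,
        Function.update_self, FreeGroup.lift_apply_of, map_one, ρ.act_one, one_smul, neg_smul,
        add_zero] at h2
      exact add_neg_eq_zero.mp h2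
  · rintro ⟨v, h0, hv⟩ a b
    refine ⟨v, fun g => ⟨?_, ?_⟩⟩
    · simp only [Sat, List.map_cons, List.map_nil, List.sum_cons, List.sum_nil, actAlg_single,
        Function.update_self, map_one, ρ.act_one, one_smul, add_zero]
      exact h0
    · simp only [Sat, List.map_cons, List.map_nil, List.sum_cons, List.sum_nil, actAlg_single,
        Function.update_self, FreeGroup.lift_apply_of, map_one, ρ.act_one, one_smul, neg_smul,
        add_zero, hv]
      exact add_neg_cancel v

lemma hasFixed_definedBy : DefinedBy (K := K) HasFixed {fixFormula K} := by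
  intro ρ
  rw [← holds_fixFormula]
  simp

lemma hasFixed_abstract : IsAbstract (K := K) HasFixed := by
  rintro ρ σ ⟨f, φ, h⟩ ⟨v, h0, hv⟩
  refine ⟨f v, ?_, ?_⟩
  · rwa [Ne, LinearEquiv.map_eq_zero_iff]
  · intro g
    have := h v (φ.symm g)
    rw [hv, MulEquiv.apply_symm_apply] at this
    exact this.symm

lemma hasFixed_saturated : IsSaturated (K := K) HasFixed := by
  intro ρ
  constructor
  · rintro ⟨v, h0, hv⟩
    refine ⟨v, h0, ?_⟩
    intro q
    induction q using Quotient.inductionOn' with
    | h g => exact hv g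
  · rintro ⟨v, h0, hv⟩
    exact ⟨v, h0, fun g => hv (QuotientGroup.mk g)⟩

lemma hasFixed_rightHereditary : IsRightHereditary (K := K) HasFixed := by
  rintro ρ ⟨v, h0, hv⟩ H
  exact ⟨v, h0, fun g => hv (g : H).1⟩

/-! ### Formulas of action see only finitely many group variables -/

lemma lift_agree (f : FreeGroup ℕ) : ∃ N : ℕ, ∀ (G : Type u) [Group G] (b b' : ℕ → G),
    (∀ n < N, b n = b' n) → FreeGroup.lift b f = FreeGroup.lift b' f := by
  induction f using FreeGroup.induction_on with
  | C1 => exact ⟨0, fun G _ b b' _ => by simp⟩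
  | of n => exact ⟨n + 1, fun G _ b b' h => by simpa using h n (Nat.lt_succ_self n)⟩
  | inv_of n _ => exact ⟨n + 1, fun G _ b b' h => by simpa using h n (Nat.lt_succ_self n)⟩
  | mul x y hx hy =>
    obtain ⟨N, hN⟩ := hx
    obtain ⟨M, hM⟩ := hy
    refine ⟨max N M, fun G _ b b' h => ?_⟩
    rw [map_mul, map_mul, hN G b b' (fun n hn => h n (lt_of_lt_of_le hn (le_max_left _ _))),
      hM G b b' (fun n hn => h n (lt_of_lt_of_le hn (le_max_right _ _)))]

lemma actAlg_agree (w : MonoidAlgebra K (FreeGroup ℕ)) : ∃ N : ℕ, ∀ (ρ : Repr K) (b b' : ℕ → ρ.G)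
    (v : ρ.V), (∀ n < N, b n = b' n) → ρ.actAlg b v w = ρ.actAlg b' v w := by
  classical
  choose N hN using lift_agree.{u}
  refine ⟨(Finsupp.support w.coeff).sup N, fun ρ b b' v h => ?_⟩
  unfold Repr.actAlg Finsupp.sum
  refine Finset.sum_congr rfl fun f hf => ?_
  beta_reduce
  rw [hN f ρ.G b b' (fun n hn => h n (lt_of_lt_of_le hn (Finset.le_sup (f := N) hf)))]

lemma list_agree (l : List (ℕ × MonoidAlgebra K (FreeGroup ℕ))) : ∃ N : ℕ,
    ∀ (ρ : Repr K) (a : ℕ → ρ.V) (b b' : ℕ → ρ.G), (∀ n < N, b n = b' n) →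
      (l.map (fun p => ρ.actAlg b (a p.1) p.2)).sum =
        (l.map (fun p => ρ.actAlg b' (a p.1) p.2)).sum := by
  induction l with
  | nil => exact ⟨0, fun ρ a b b' _ => rfl⟩
  | cons p l ih =>
    obtain ⟨N, hN⟩ := ih
    obtain ⟨M, hM⟩ := actAlg_agree p.2
    refine ⟨max N M, fun ρ a b b' h => ?_⟩
    rw [List.map_cons, List.map_cons, List.sum_cons, List.sum_cons,
      hN ρ a b b' (fun n hn => h n (lt_of_lt_of_le hn (le_max_left _ _))),
      hM ρ b b' _ (fun n hn => h n (lt_of_lt_of_le hn (le_max_right _ _)))]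

lemma sat_agree (φ : Formula K) (hφ : IsActionFormula φ) : ∃ N : ℕ,
    ∀ (ρ : Repr K) (a : ℕ → ρ.V) (b b' : ℕ → ρ.G), (∀ n < N, b n = b' n) →
      (Sat ρ a b φ ↔ Sat ρ a b' φ) := by
  induction φ with
  | lin l =>
    obtain ⟨N, hN⟩ := list_agree l
    refine ⟨N, fun ρ a b b' h => ?_⟩
    unfold Sat
    rw [hN ρ a b b' h]
  | grp f => exact hφ.elim
  | and φ ψ ihφ ihψ =>
    obtain ⟨N, hN⟩ := ihφ hφ.1
    obtain ⟨M, hM⟩ := ihψ hφ.2
    refine ⟨max N M, fun ρ a b b' h => ?_⟩
    unfold Sat
    rw [hN ρ a b b' (fun n hn => h n (lt_of_lt_of_le hn (le_max_left _ _))),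
      hM ρ a b b' (fun n hn => h n (lt_of_lt_of_le hn (le_max_right _ _)))]
  | or φ ψ ihφ ihψ =>
    obtain ⟨N, hN⟩ := ihφ hφ.1
    obtain ⟨M, hM⟩ := ihψ hφ.2
    refine ⟨max N M, fun ρ a b b' h => ?_⟩
    unfold Sat
    rw [hN ρ a b b' (fun n hn => h n (lt_of_lt_of_le hn (le_max_left _ _))),
      hM ρ a b b' (fun n hn => h n (lt_of_lt_of_le hn (le_max_right _ _)))]
  | not φ ih =>
    obtain ⟨N, hN⟩ := ih hφ
    refine ⟨N, fun ρ a b b' h => ?_⟩
    unfold Sat
    rw [hN ρ a b b' h]
  | allX n φ ih =>
    obtain ⟨N, hN⟩ := ih hφ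
    refine ⟨N, fun ρ a b b' h => ?_⟩
    unfold Sat
    exact forall_congr' fun v => hN ρ _ b b' h
  | exX n φ ih =>
    obtain ⟨N, hN⟩ := ih hφ
    refine ⟨N, fun ρ a b b' h => ?_⟩
    unfold Sat
    exact exists_congr fun v => hN ρ _ b b' h
  | allY n φ ih => exact hφ.elim
  | exY n φ ih => exact hφ.elim

lemma lift_coe {G : Type u} [Group G] (H : Subgroup G) (b : ℕ → H) (f : FreeGroup ℕ) :
    ((FreeGroup.lift b f : H) : G) = FreeGroup.lift (fun n => (b n : G)) f := by
  have h : H.subtype.comp (FreeGroup.lift b) = FreeGroup.lift (fun n => (b n : G)) := by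
    ext n
    simp
  exact DFunLike.congr_fun h f

lemma actAlg_restrict (ρ : Repr K) (H : Subgroup ρ.G) (b : ℕ → H) (v : ρ.V)
    (w : MonoidAlgebra K (FreeGroup ℕ)) :
    (ρ.restrict H).actAlg b v w = ρ.actAlg (fun n => (b n : ρ.G)) v w := by
  unfold Repr.actAlg
  refine Finsupp.sum_congr fun f _ => ?_
  change w.coeff f • ρ.act v ((FreeGroup.lift b f : H) : ρ.G) = _
  rw [lift_coe]

lemma sat_restrict (ρ : Repr K) (H : Subgroup ρ.G) (φ : Formula K) (hφ : IsActionFormula φ) :
    ∀ (a : ℕ → ρ.V) (b : ℕ → H),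
      (Sat (ρ.restrict H) a b φ ↔ Sat ρ a (fun n => (b n : ρ.G)) φ) := by
  induction φ with
  | lin l =>
    intro a b
    have h : (l.map (fun p => (ρ.restrict H).actAlg b (a p.1) p.2)) =
        (l.map (fun p => ρ.actAlg (fun n => (b n : ρ.G)) (a p.1) p.2)) :=
      List.map_congr_left fun p _ => actAlg_restrict ρ H b (a p.1) p.2
    change (l.map (fun p => (ρ.restrict H).actAlg b (a p.1) p.2)).sum = 0 ↔ _
    rw [h]
    exact Iff.rfl
  | grp f => exact hφ.elim
  | and φ ψ ihφ ihψ =>
    intro a b
    exact and_congr (ihφ hφ.1 a b) (ihψ hφ.2 a b)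
  | or φ ψ ihφ ihψ =>
    intro a b
    exact or_congr (ihφ hφ.1 a b) (ihψ hφ.2 a b)
  | not φ ih =>
    intro a b
    exact not_congr (ih hφ a b)
  | allX n φ ih =>
    intro a b
    exact forall_congr' fun v => ih hφ _ b
  | exX n φ ih =>
    intro a b
    exact exists_congr fun v => ih hφ _ b
  | allY n φ ih => exact hφ.elim
  | exY n φ ih => exact hφ.elim

/-- A class defined by formulas of action contains `ρ = (V, G)` as soon as for all finite
sequences of elements of `G` it contains some `(V, H)` with `H` containing the sequence. -/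
lemma local_of_action {X : Repr K → Prop} {T : Set (Formula K)} (hT : ∀ φ ∈ T, IsActionFormula φ)
    (hX : DefinedBy X T) (ρ : Repr K)
    (h : ∀ (N : ℕ) (b : ℕ → ρ.G), ∃ H : Subgroup ρ.G, (∀ n < N, b n ∈ H) ∧ X (ρ.restrict H)) :
    X ρ := by
  classical
  rw [hX ρ]
  intro φ hφ a b
  obtain ⟨N, hN⟩ := sat_agree φ (hT φ hφ)
  obtain ⟨H, hH, hXH⟩ := h N b
  let b' : ℕ → H := fun n => if hn : n < N then ⟨b n, hH n hn⟩ else 1
  have h1 : Sat (ρ.restrict H) a b' φ := (hX _).1 hXH φ hφ a b'
  rw [sat_restrict ρ H φ (hT φ hφ)] at h1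
  refine (hN ρ a b _ ?_).2 h1
  intro n hn
  simp [b', hn]

/-! ### The counterexample -/

/-- The module `K ⊕ K ⊕ ...`. -/
abbrev Vec (K : Type u) [Ring K] : Type u := ℕ →₀ K

/-- The automorphisms of `K ⊕ K ⊕ ...` which fix all but finitely many of the standard basis
vectors. -/
def finitary (K : Type u) [Ring K] : Subgroup (Vec K ≃ₗ[K] Vec K) where
  carrier := {g | ∃ N : ℕ, ∀ n, N ≤ n → g (Finsupp.single n 1) = Finsupp.single n 1}
  mul_mem' := by
    rintro a b ⟨N, hN⟩ ⟨M, hM⟩
    refine ⟨max N M, fun n hn => ?_⟩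
    rw [LinearEquiv.mul_apply, hM n (le_trans (le_max_right _ _) hn),
      hN n (le_trans (le_max_left _ _) hn)]
  one_mem' := ⟨0, fun n _ => rfl⟩
  inv_mem' := by
    rintro a ⟨N, hN⟩
    refine ⟨N, fun n hn => ?_⟩
    have h := hN n hn
    calc a⁻¹ (Finsupp.single n 1) = a⁻¹ (a (Finsupp.single n 1)) := by rw [h]
      _ = (a⁻¹ * a) (Finsupp.single n 1) := rfl
      _ = Finsupp.single n 1 := by rw [inv_mul_cancel]; rfl

/-- The representation: the group of finitary automorphisms acting on the right by `v ∘ g = g⁻¹ v`. -/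
noncomputable def bigRepr (K : Type u) [Ring K] : Repr K where
  V := Vec K
  G := finitary K
  act := fun v g => ((g⁻¹ : finitary K) : Vec K ≃ₗ[K] Vec K) v
  act_add := fun v w g => map_add _ v w
  act_smul := fun c v g => map_smul _ c v
  act_one := fun v => by simp
  act_mul := fun v g h => by
    rw [mul_inv_rev]
    rfl

/-- The subgroup of the elements which fix a vector `v`. -/
def Repr.stab (ρ : Repr K) (v : ρ.V) : Subgroup ρ.G where
  carrier := {g | ρ.act v g = v}
  mul_mem' := by
    intro a b ha hb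
    change ρ.act v (a * b) = v
    rw [ρ.act_mul]
    rw [Set.mem_ofPred_eq] at ha hb
    rw [ha, hb]
  one_mem' := ρ.act_one _
  inv_mem' := by
    intro a ha
    rw [Set.mem_ofPred_eq] at ha
    change ρ.act v a⁻¹ = v
    nth_rewrite 1 [← ha]
    rw [← ρ.act_mul, mul_inv_cancel, ρ.act_one]

/-- The standard basis vectors. -/
noncomputable def e (K : Type u) [Ring K] (M : ℕ) : (bigRepr K).V := (Finsupp.single M 1 : Vec K)

lemma exists_stab (N : ℕ) (b : ℕ → (bigRepr K).G) :
    ∃ M, ∀ n < N, b n ∈ (bigRepr K).stab (e K M) := by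
  have h : ∀ n, ∃ M : ℕ, ∀ m, M ≤ m → b n ∈ (bigRepr K).stab (e K m) := by
    intro n
    obtain ⟨M, hM⟩ := ((b n)⁻¹ : finitary K).2
    exact ⟨M, fun m hm => hM m hm⟩
  choose M hM using h
  exact ⟨(Finset.range N).sup M, fun n hn => hM n _ (Finset.le_sup (f := M) (by simpa using hn))⟩

lemma not_hasFixed [Nontrivial K] : ¬ HasFixed (bigRepr K) := by
  classical
  rintro ⟨v, h0, hv⟩
  change Vec K at v
  obtain ⟨i, hi⟩ : ∃ i, v i ≠ 0 := by
    by_contra hcon
    push Not at hcon
    exact h0 (Finsupp.ext hcon)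
  obtain ⟨j, hj⟩ : ∃ j, v j = 0 := by
    obtain ⟨j, hj⟩ := Infinite.exists_notMem_finset v.support
    exact ⟨j, by simpa using hj⟩
  let s : Vec K ≃ₗ[K] Vec K := Finsupp.domLCongr (Equiv.swap i j)
  have hs : s ∈ finitary K := by
    refine ⟨max i j + 1, fun n hn => ?_⟩
    have h1 : n ≠ i := by have := le_max_left i j; omega
    have h2 : n ≠ j := by have := le_max_right i j; omega
    change Finsupp.domLCongr (Equiv.swap i j) _ = _
    rw [Finsupp.domLCongr_single, Equiv.swap_apply_of_ne_of_ne h1 h2]
  have h1 : s v = v := by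
    have h2 := hv (⟨s, hs⟩⁻¹ : finitary K)
    change ((⟨s, hs⟩⁻¹⁻¹ : finitary K) : Vec K ≃ₗ[K] Vec K) v = v at h2
    rwa [inv_inv] at h2
  have h3 : (s v) i = v j := by
    change (Finsupp.domLCongr (Equiv.swap i j) v) i = v j
    rw [Finsupp.domLCongr_apply, Finsupp.domCongr_apply, Finsupp.equivMapDomain_apply,
      Equiv.symm_swap, Equiv.swap_apply_left]
  rw [h1, hj] at h3
  exact hi h3

/-- For every nontrivial ring `K` there is an abstract class of representations over `K` which is
defined by a single first-order formula, saturated and right hereditary, but is not defined by any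
set of formulas of action. -/
theorem result (K : Type u) [Ring K] [Nontrivial K] :
    ∃ X : Repr K → Prop, IsAbstract X ∧ (∃ φ : Formula K, DefinedBy X {φ}) ∧ IsSaturated X ∧
      IsRightHereditary X ∧
      ¬ ∃ T : Set (Formula K), (∀ φ ∈ T, IsActionFormula φ) ∧ DefinedBy X T := by
  refine ⟨HasFixed, hasFixed_abstract, ⟨fixFormula K, hasFixed_definedBy⟩, hasFixed_saturated,
    hasFixed_rightHereditary, ?_⟩
  rintro ⟨T, hT, hX⟩
  refine not_hasFixed (K := K) (local_of_action hT hX (bigRepr K) fun N b => ?_)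
  obtain ⟨M, hM⟩ := exists_stab N b
  refine ⟨(bigRepr K).stab (e K M), hM, e K M, ?_, fun g => (g : (bigRepr K).stab (e K M)).2⟩
  intro h
  have h2 : (Finsupp.single M 1 : Vec K) = 0 := h
  rw [Finsupp.single_eq_zero] at h2
  exact one_ne_zero h2

end Pool.Agent.Results.MP_98e941_al.FixedVector
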